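import Pool.Agent.U436.HP.Aff

/-!
# Smooth affine varieties which are finite quotients of powers of affine curves

Let `k` be an algebraically closed field, `n ≥ 1` invertible in `k`, `p 1, …, p N ∈ k` distinct,
`c 1, …, c N ∈ k` nonzero, `b ∈ k` nonzero, `m + d + 1 = N`, `d ≥ 1`, and let `V ⊆ 𝔸^N` be the affine variety given
by the `m + 1` equations

  `∑ i, c i * p i ^ j * x i ^ n = 0` for `j < m`,   `∑ i, c i * p i ^ m * x i ^ n = b`.

For `c i = w i := 1 / ∏ l ≠ i, (p i - p l)` and `b = 1` the points of `V` are the solutions of `x i ^ n = P (p i)`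
with `P` a monic polynomial of degree `d`. (For `n = 2`, `d = 2`, `p i = i` these are the affine surfaces of the
problem of Büchi.) Let `C ⊆ 𝔸^N` be the affine curve `{(y i) | ∃ t, ∀ i, y i ^ n = p i - t}`.

We show: `V` and `C` satisfy the Jacobian criterion at all points, so they are smooth of dimensions `d` and `1`;
for suitable nonzero constants `lam i` the coordinatewise product `(y 1, …, y d) ↦ (lam i * ∏ j, y j i) i` maps
`C ^ d` onto `V`, and its fibres are the orbits of the finite group of the pairs of a permutation of the `d`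
factors and a `d`-tuple of vectors of `n`-th roots of unity with product `(1, …, 1)`.

So `C ^ d → V` is a finite surjective morphism of smooth varieties, and the motive `M(V)` with rational
coefficients is a direct summand of `M(C) ^ (⊗ d)`. By the theorem of Guletskii and Mazza on curves, `M(V)` is
Schur-finite (not formalised); the same follows for all such `V` over a perfect field (`p i`, `c i`, `b` in it), as
the functor of base change to a finite extension detects the vanishing of objects.
-/

set_option autoImplicit false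

namespace Pool.Agent.Results.MP_fc2ced_ag.AffineHadamardPowers

open Pool.Agent.U436.HP Finset

theorem result (k : Type) [Field k] [IsAlgClosed k] (n N m d : ℕ) (hn : (n : k) ≠ 0) (hd : 1 ≤ d)
    (hN : m + d + 1 = N) (p c : Fin N → k) (b : k) (hp : Function.Injective p) (hc : ∀ i, c i ≠ 0) (hb : b ≠ 0) :
    (∀ x ∈ affc n m p c b, LinearIndependent k fun (j : Fin (m + 1)) (i : Fin N) =>
      MvPolynomial.eval x (MvPolynomial.pderiv i (form n p c j))) ∧
    (∀ y ∈ affCurve n p, (∀ j ≤ N - 2, MvPolynomial.eval y (form n p (wt p) j) = if j = N - 2 then 1 else 0) ∧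
      LinearIndependent k fun (j : Fin (N - 2 + 1)) (i : Fin N) =>
        MvPolynomial.eval y (MvPolynomial.pderiv i (form n p (wt p) j))) ∧
    (∀ y : Fin N → k, (∀ j ≤ N - 2, MvPolynomial.eval y (form n p (wt p) j) = if j = N - 2 then 1 else 0) →
      y ∈ affCurve n p) ∧
    ∃ lam : Fin N → k, (∀ i, lam i ≠ 0) ∧
      (∀ y : Fin d → Fin N → k, (∀ j, y j ∈ affCurve n p) → (fun i => lam i * ∏ j, y j i) ∈ affc n m p c b) ∧
      (∀ x ∈ affc n m p c b, ∃ y : Fin d → Fin N → k,
        (∀ j, y j ∈ affCurve n p) ∧ ∀ i, x i = lam i * ∏ j, y j i) ∧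
      (∀ y y' : Fin d → Fin N → k, (∀ j, y j ∈ affCurve n p) → (∀ j, y' j ∈ affCurve n p) →
        ((∀ i, lam i * ∏ j, y' j i = lam i * ∏ j, y j i) ↔
          ∃ (σ : Equiv.Perm (Fin d)) (ζ : Fin d → Fin N → k),
            (∀ j i, ζ j i ^ n = 1) ∧ (∀ i, ∏ j, ζ j i = 1) ∧ ∀ j i, y' j i = ζ j i * y (σ j) i)) := by
  have hn0 : n ≠ 0 := by rintro rfl; simp at hn
  have hN2 : 2 ≤ N := by omega
  refine ⟨fun x hx => affc_smooth hn hp hN hc hb hx, fun y hy => ?_, fun y hy => ?_, ?_⟩
  · rw [affCurve_eq hp hN2] at hy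
    exact ⟨hy, aff_smooth (d := 1) hn hp (by omega) hy⟩
  · rw [affCurve_eq hp hN2]; exact hy
  · choose lam hlam using fun i => IsAlgClosed.exists_pow_nat_eq (b * wt p i / c i) (Nat.pos_of_ne_zero hn0)
    have h1 : ∀ i, c i * lam i ^ n = b * wt p i := fun i => by
      rw [hlam i, mul_div_cancel₀ _ (hc i)]
    have h0 : ∀ i, lam i ≠ 0 := fun i h => mul_ne_zero hb (wt_ne_zero hp i)
      (by rw [← h1 i, h, zero_pow hn0, mul_zero])
    refine ⟨lam, h0, fun y hy => ?_, fun x hx => ?_, fun y y' hy hy' => ?_⟩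
    · exact (mem_affc_iff hb h1 fun i => ∏ j, y j i).mpr (aff_prod_mem hp hN y hy)
    · have h2 : (fun i => x i / lam i) ∈ aff n m p := by
        rw [← mem_affc_iff (m := m) hb h1]
        convert hx using 2 with i
        rw [mul_div_cancel₀ _ (h0 i)]
      obtain ⟨y, hy, h3⟩ := aff_exists_prod hn0 hp hd hN h2
      exact ⟨y, hy, fun i => by rw [← h3 i, mul_div_cancel₀ _ (h0 i)]⟩
    · rw [← aff_prod_eq_iff hn0 hp hN hy hy']
      exact forall_congr' fun i => ⟨fun h => mul_left_cancel₀ (h0 i) h, fun h => by rw [h]⟩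

end Pool.Agent.Results.MP_fc2ced_ag.AffineHadamardPowers
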