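import Pool.Agent.U672.ST.Mot

/-!
# Schur-finiteness of motives and sums of quasi-homogeneous polynomials in separate variables

Let `k` be a perfect field of any characteristic. For a polynomial `f` and a function `g` on an affine
scheme `Spec A` let `Sol f g` be the ring of functions of the scheme of the pairs `(x, y)` with
`f (x) = g (y)`, and `Fib f c` the one of the fibre `f = c`, `c ∈ k`. `tot f` is the sum of the
polynomials `f j` in separate variables.

The Schur-finiteness of the Milnor fibres `f = 1` of quasi-homogeneous polynomials is closed under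
sums in separate variables (Sebastiani-Thom), and it implies Schur-finiteness for `f (x) = g (y)`. So
the motives of all hypersurfaces

`f_1 (x_1, y_1) + ... + f_n (x_n, y_n) = g`

in `C × 𝔸^(2n)` are Schur-finite, for all `n`, all quasi-homogeneous polynomials `f_j` in two variables
and all functions `g` on affine curves `C` (or points), in all dimensions; they may be singular, and
some of the `f_j` may be replaced by trilinear forms with a block of at most three variables.

Proof. Let `f` and `f'` be quasi-homogeneous of the same degree `D`. On `f (x) + f' (x') = 0` the part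
`f (x) = 0` is the product of `f = 0` and `f' = 0`; the part `f (x) ≠ 0` has the free covering
`v ^ D = f (x)` of degree `D`, which is the product of `f = 1`, `f' = -1` and the multiplicative group.
The fibres `f = c` are obtained from `f - c v ^ D = 0`, and the terms are moved from `f'` to `f` until
only plane curves are left.
-/

set_option autoImplicit false

open CategoryTheory MonoidalCategory AlgebraicGeometry Pool.Agent.TH137.DG Pool.Agent.Y116.UV
  Pool.Agent.Z125.UN Pool.Agent.U672.ST

namespace Pool.Agent.Results.MP_fc2ced_ag.SebastianiThomSums

universe v u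

variable {k : Type} [Field k] {C : Type u} [Category.{v} C] [MonoidalCategory C]
  [SymmetricCategory C] [Preadditive C] [Linear ℚ C] [Limits.HasZeroObject C] [HasShift C ℤ]
  [∀ n : ℤ, (shiftFunctor C n).Additive] [Pretriangulated C] {D : Motives k C}

/-- The scheme of the pairs `(x, y)` with `f (x) = g (y)`, `g` a function on `Spec A`. -/
noncomputable def solution {σ A : Type} [CommRing A] [Algebra k A] (f : MvPolynomial σ k) (g : A) :
    Sch k :=
  aff k (Sol f g)

/-- The scheme `f = c`. -/
noncomputable def level {σ : Type} (f : MvPolynomial σ k) (c : k) : Sch k :=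
  aff k (Fib f c)

/-- The motive with compact support of `X` is Schur-finite. -/
def SFc (D : Motives k C) (X : Sch k) : Prop :=
  IsSchurFinite (D.Mc X)

/-- The motive of `X` is Schur-finite. -/
def SF (D : Motives k C) (X : Sch k) : Prop :=
  IsSchurFinite (D.M X)

/-- The terms of the sums: `f` is quasi-homogeneous in at most two variables, or a trilinear form one of
whose blocks has at most three variables (`Elem 1 f`), or any quasi-homogeneous polynomial whose
Milnor fibre `f = 1` has a Schur-finite motive with compact support. -/
def Term (D : Motives k C) {σ : Type} (f : MvPolynomial σ k) : Prop :=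
  Elem 1 f ∨ (QuasiHom f ∧ SFc D (level f 1))

/-- The functions on the right hand side: `Spec A` has dimension at most one, or the scheme `g = 0` and
all cyclic coverings `v ^ m = g` of `Spec A` have Schur-finite motives with compact support. -/
def Base (D : Motives k C) {A : Type} [CommRing A] [Algebra k A] (g : A) : Prop :=
  ringKrullDim A ≤ 1 ∨ (SFc D (aff k (A ⧸ Ideal.span {g})) ∧
    ∀ m : ℕ, m ≠ 0 → SFc D (aff k (AdjoinRoot (Polynomial.X ^ m - Polynomial.C g))))

/-- **Sebastiani-Thom sums.** Let `k` be a perfect field, and let `f j`, `j < n`, be terms in separate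
variables. For all functions `g` on affine schemes `Spec A` of finite type as in `Base`, the scheme
`∑ f j (x j) = g (y)` has a Schur-finite motive with compact support, and a Schur-finite motive if it
is smooth. If the degrees of the `f j` are not divisible by the characteristic, then its fibres
`∑ f j (x j) = c`, `c ∈ k`, `c ≠ 0`, are smooth and have Schur-finite motives. -/
theorem result [PerfectField k] (hD : TensorMotives D) (n : ℕ) (σ : Fin n → Type)
    [∀ j, Finite (σ j)] (f : ∀ j, MvPolynomial (σ j) k) (hf : ∀ j, Term D (f j)) :
    (∀ (A : Type) [CommRing A] [Algebra k A] [Algebra.FiniteType k A] (g : A), Base D g →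
      SFc D (solution (tot f) g) ∧
        (Smooth (solution (tot f) g).hom → SF D (solution (tot f) g))) ∧
    ∀ (w : ∀ j, σ j → ℤ) (d : Fin n → ℤ),
      (∀ j, MvPolynomial.IsWeightedHomogeneous (w j) (f j) (d j)) → (∀ j, (d j : k) ≠ 0) →
        ∀ c : k, c ≠ 0 → Smooth (level (tot f) c).hom ∧ SF D (level (tot f) c) := by
  have hP := bndt_sf hD
  have hcur : ∀ (A : Type) [CommRing A] [Algebra k A] [Algebra.FiniteType k A],
      ringKrullDim A ≤ (1 : ℕ) → IsSchurFinite (D.Mc (aff k A)) :=
    fun A _ _ _ hA => sf_dim hD (sf_curve hD) A hA
  have h2 : Plane fun X : Sch k => IsSchurFinite (D.Mc X) := plane_of hcur hP le_rfl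
  have hq : ∀ j, QuasiHom (f j) := by
    intro j
    rcases hf j with h | h
    · exact elem_quasi h
    · exact h.1
  have hg : ∀ j, Good (fun X : Sch k => IsSchurFinite (D.Mc X)) (f j) := by
    intro j
    rcases hf j with h | h
    · exact elem_good hcur hP le_rfl h
    · exact good_of_milnor hP h2 h.1 ((fib_iff hP _ _).mp h.2)
  obtain ⟨hqt, hgt⟩ := good_tot hP h2 n σ f hq hg
  have key : ∀ (A : Type) [CommRing A] [Algebra k A] [Algebra.FiniteType k A] (g : A), Base D g →
      IsSchurFinite (D.Mc (aff k (Sol (tot f) g))) := by
    intro A _ _ _ g h
    rcases h with h | h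
    · exact p_sol_curve hP (fun B _ _ _ hB => hcur B (by exact_mod_cast hB)) hqt hgt h g
    · obtain ⟨u, m, hm, hw⟩ := hqt.nat
      exact p_sol hP g hm hw hgt h.1 (h.2 m hm)
  refine ⟨fun A _ _ _ g h => ⟨key A g h, fun hs => ?_⟩, ?_⟩
  · have hft : Algebra.FiniteType k (Sol (tot f) g) :=
      Algebra.FiniteType.trans (S := A) inferInstance inferInstance
    exact (hD.duality _ (ft_aff True) hs).mpr (key A g h)
  · intro w d hw hd c hc
    have hsm : Smooth (aff k (Fib (tot f) c)).hom := by
      apply smooth_aff
      refine wh_smooth (wh_tot hw) ?_ hc
      push_cast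
      exact Finset.prod_ne_zero_iff.mpr fun j _ => hd j
    exact ⟨hsm, (hD.duality _ (ft_aff True) hsm).mpr ((fib_iff hP _ _).mpr (hgt c))⟩

end Pool.Agent.Results.MP_fc2ced_ag.SebastianiThomSums
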