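import Pool.Agent.U672.TC.Main

/-!
# Schur-finiteness of motives of schemes given by equations with few terms

Let `k` be a perfect field of any characteristic. The excess of a finite system of equations in an
affine space is the sum of the numbers `(number of terms) - 2` over the equations with at least three
terms. We prove that the motive with compact support of `X` is Schur-finite for all systems of
excess at most two: any number of equations with at most two terms, and besides either one equation
with at most four terms, or at most two equations with three terms. In particular this is true for all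
hypersurfaces with at most four terms, in all dimensions. More generally, any number of equations
with arbitrary numbers of terms may be added if their exponents are independent modulo the
differences of the exponents of the system. In particular the motives of all hypersurfaces with
affinely independent exponents are Schur-finite.

Proof. We stratify by the vanishing of the coordinates, so that all coordinates are invertible.
Consider an equation `f = ∑ c_m x ^ m = 0` whose exponents are independent. The free covering
`v_m ^ N = t x ^ m` of `X × 𝔾_m` is, for a suitable `N`, the product of the diagonal hypersurface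
`∑ c_m v_m ^ N = 0` in a torus, and of the scheme given by the remaining equations and `t x ^ m = 1`. If
the exponents are not independent, then `X` is, up to tori, finite over a scheme of dimension at
most one: the ratios of the monomials of the equations are rational functions of two of them, and the
dependence is a nontrivial relation of these.
-/

set_option autoImplicit false

open CategoryTheory MonoidalCategory AlgebraicGeometry MvPolynomial Pool.Agent.TH137.DG
  Pool.Agent.Y116.UV Pool.Agent.Z125.UN Pool.Agent.U672.ST Pool.Agent.U672.TC Pool.Agent.U738.BN

namespace Pool.Agent.Results.MP_fc2ced_ag.SparseSystems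

universe v u

variable {k : Type} [Field k] {C : Type u} [Category.{v} C] [MonoidalCategory C]
  [SymmetricCategory C] [Preadditive C] [Linear ℚ C] [Limits.HasZeroObject C] [HasShift C ℤ]
  [∀ n : ℤ, (shiftFunctor C n).Additive] [Pretriangulated C] {D : Motives k C}

/-- The closed subscheme of the affine space with the coordinates `σ` given by the equations
`G i = 0`. -/
noncomputable def zeros {σ κ : Type} (G : κ → MvPolynomial σ k) : Sch k :=
  aff k (MvPolynomial σ k ⧸ Ideal.span (Set.range G))

/-- `M^c(X)` is Schur-finite, and if `X` is smooth, then `M(X)` is Schur-finite. -/
def SF (D : Motives k C) (X : Sch k) : Prop :=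
  IsSchurFinite (D.Mc X) ∧ (Smooth X.hom → IsSchurFinite (D.M X))

/-- The exponents of `f` are affinely independent over `ℚ`. -/
def Simplicial {σ : Type} (f : MvPolynomial σ k) : Prop :=
  AffineIndependent ℚ fun m : f.support => fun s => (((m : σ →₀ ℕ) s : ℕ) : ℚ)

lemma posN [PerfectField k] (hD : TensorMotives D) :
    PosN True (fun X : Sch k => IsSchurFinite (D.Mc X)) 1 := by
  have hP := bndt_sf hD
  have hcur : ∀ (A : Type) [CommRing A] [Algebra k A] [Algebra.FiniteType k A],
      ringKrullDim A ≤ (1 : ℕ) → IsSchurFinite (D.Mc (aff k A)) :=
    fun A _ _ _ hA => sf_dim hD (sf_curve hD) A hA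
  have h := pos_of_bnd hP.toBnd fun A _ _ _ => by
    refine hcur A ?_
    refine (dim_integral (A := k) A).trans ?_
    rw [ringKrullDim_eq_zero_of_field]
    exact_mod_cast zero_le_one (α := ℕ)
  exact { toPos := h, dim := fun A _ _ _ hA => hcur A hA }

/-- **Theorem.** Let `k` be a perfect field.
(1) Let `G` be a finite system of polynomials of excess at most two, and `H` a finite system whose
exponents are independent modulo the differences of the exponents of `G`. Then the scheme
`G = 0, H = 0` has a Schur-finite motive with compact support, and a Schur-finite motive if it is
smooth.
(2) This is true for all hypersurfaces with at most four terms.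
(3) This is true for all hypersurfaces with affinely independent exponents. -/
theorem result [PerfectField k] (hD : TensorMotives D) (σ : Type) [Finite σ] :
    (∀ (p q : ℕ) (G : Fin p → MvPolynomial σ k) (H : Fin q → MvPolynomial σ k),
      excess G ≤ 2 → IndS G H → SF D (zeros (Sum.elim G H))) ∧
    (∀ f : MvPolynomial σ k, f.support.card ≤ 4 → SF D (zeros fun _ : Unit => f)) ∧
    ∀ f : MvPolynomial σ k, Simplicial f → SF D (zeros fun _ : Unit => f) := by
  have hP := bndt_sf hD
  have hN := posN hD
  have hp : Plane fun X : Sch k => IsSchurFinite (D.Mc X) := plane_of hN.dim hP le_rfl
  have h1 : ∀ {σ κ : Type} [Finite σ] (G : κ → MvPolynomial σ k),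
      IsSchurFinite (D.Mc (zeros G)) → SF D (zeros G) :=
    fun G h => ⟨h, fun hs => (hD.duality _ (ft_aff True) hs).mpr h⟩
  have key : ∀ (p q : ℕ) (G : Fin p → MvPolynomial σ k) (H : Fin q → MvPolynomial σ k),
      excess G ≤ 2 → IndS G H → SF D (zeros (Sum.elim G H)) :=
    fun p q G H he hI => h1 _ (main_P hP hp hN G H hI he)
  refine ⟨key, fun f hf => ?_, fun f hf => ?_⟩
  · have h := key 1 0 (fun _ => f) (fun i => i.elim0) (by
      rw [excess, Fin.sum_univ_one]
      omega) (fun _ _ _ i => i.elim0)
    have e : Set.range (Sum.elim (fun _ : Fin 1 => f) fun i : Fin 0 => i.elim0) =
        Set.range fun _ : Unit => f := by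
      ext g
      constructor
      · rintro ⟨i | i, rfl⟩
        · exact ⟨(), rfl⟩
        · exact i.elim0
      · rintro ⟨_, rfl⟩
        exact ⟨Sum.inl 0, rfl⟩
    rw [zeros, e] at h
    exact h
  · have h := key 0 1 (fun i => i.elim0) (fun _ => f) (by
      rw [excess, Fin.sum_univ_zero]
      exact Nat.zero_le _) (ind_of_affine _ f hf)
    have e : Set.range (Sum.elim (fun i : Fin 0 => i.elim0) fun _ : Fin 1 => f) =
        Set.range fun _ : Unit => f := by
      ext g
      constructor
      · rintro ⟨i | i, rfl⟩
        · exact i.elim0
        · exact ⟨(), rfl⟩
      · rintro ⟨_, rfl⟩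
        exact ⟨Sum.inr 0, rfl⟩
    rw [zeros, e] at h
    exact h

end Pool.Agent.Results.MP_fc2ced_ag.SparseSystems
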