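import Pool.Agent.U738.BN.Fam
import Pool.Agent.Z125.UN.MotUni

/-!
# Schur-finiteness of motives: equations with two terms and equations with three terms

`IsMotives D` (definition from the starting library) lists the standard properties of Voevodsky's category
`DM_gm(k)_ℚ`, of the motives `M X` and of the motives with compact support `M^c X` of the separated
schemes `X` of finite type over the perfect field `k` which are used; all of them are known.

For a number `t` we compare: the motives `M^c Y` are Schur-finite for all schemes `Y` given by equations
with at most `t` terms whose coefficients are arbitrary elements of a `k`-algebra of finite type and of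
dimension at most one (families over curves); the same for systems of bilinear equations over `k` with at
most `t` terms and coefficients in `T ∪ {1}`, where `T` generates the field `k` (all coefficients `1` if
`k` is a prime field); `M X` is Schur-finite for all smooth separated schemes `X` of finite type over `k`,
the statement of the conjecture for the field `k`.  The first two statements are true for `t ≤ 2`, and
equivalent to the third one for `t ≥ 3`.
-/

set_option autoImplicit false

open CategoryTheory MonoidalCategory AlgebraicGeometry MvPolynomial Pool.Agent.TH137.DG
  Pool.Agent.Y116.UV Pool.Agent.Z125.UN Pool.Agent.Q282.UK Pool.Agent.U738.BN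

namespace Pool.Agent.Results.MP_fc2ced_ag.TwoAndThreeTerms

universe v u

variable {k : Type} [Field k] {C : Type u} [Category.{v} C] [MonoidalCategory C]
  [SymmetricCategory C] [Preadditive C] [Linear ℚ C] [Limits.HasZeroObject C] [HasShift C ℤ]
  [∀ n : ℤ, (shiftFunctor C n).Additive] [Pretriangulated C] {D : Motives k C}

/-- Schemes of dimension at most one. -/
lemma mc_curves [PerfectField k] (hD : IsMotives D) (X : Sch k) (hX : FT True X)
    (hn : topologicalKrullDim X.left ≤ 1) : IsSchurFinite (D.Mc X) :=
  dim_smooth (bnd_sf hD) 1 (fun Y hY hs hd => (hD.duality Y hY hs).mp
    (hD.curves Y hY hs (by exact_mod_cast hd))) X hX (by exact_mod_cast hn)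

lemma posD_sf [PerfectField k] (hD : IsMotives D) :
    PosD True (fun X : Sch k => IsSchurFinite (D.Mc X)) 1 where
  iso := (bnd_sf hD).iso
  total := (bnd_sf hD).total
  times A _ _ _ h := (pos_of_bnd (bnd_sf hD) fun B _ _ _ => mc_curves hD _ (ft_aff True)
    ((dim_finite B).trans (by norm_num))).times A h
  dim A _ _ _ hA := mc_curves hD _ (ft_aff True) (by rw [topDim_aff]; exact hA)

lemma clo_sf (hD : IsMotives D) : Clo True fun X : Sch k => IsSchurFinite (D.Mc X) where
  iso := (bnd_sf hD).iso
  total := (bnd_sf hD).total
  opened := (bnd_sf hD).opened
  torus := (bnd_sf hD).torus

lemma all_iff [PerfectField k] (hD : IsMotives D) :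
    (∀ X : Sch k, FT True X → IsSchurFinite (D.Mc X)) ↔
      ∀ X : Sch k, FT True X → Smooth X.hom → IsSchurFinite (D.M X) := by
  constructor
  · intro h X hX hs
    exact (hD.duality X hX hs).mpr (h X hX)
  · intro h X hX
    have hd : ∀ (A : Type) [CommRing A] [Algebra k A] [Algebra.FiniteType k A],
        IsSchurFinite (D.Mc (aff k A)) := by
      intro A _ _ _
      obtain ⟨N, hN⟩ := exists_dim_le (k := k) A
      exact dim_smooth (sep := True) (bnd_sf hD) N
        (fun Y hY hs _ => (hD.duality Y hY hs).mp (h Y hY hs)) _ (ft_aff True) hN
    exact of_affine' (bnd_sf hD).iso (bnd_sf hD).total (fun A _ _ _ => hd A) X hX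

/-- **Theorem.** Let `k` be a perfect field, let `D` be the motives of the schemes over `k`, and let `T`
be a set which generates `k` as a field.  For every `t ≥ 0` the following statements are equivalent:
(1) the motive with compact support is Schur-finite for all schemes over `k` which are given by any set of
equations with at most `t` terms whose coefficients are in a `k`-algebra of finite type of dimension at
most one;
(2) the motive with compact support of every scheme over `k` given by a system of bilinear equations with
at most `t` terms in every equation and with all coefficients in `T ∪ {1}` is Schur-finite;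
(3) `t ≤ 2`, or the motives of all smooth separated schemes of finite type over `k` are Schur-finite.
In particular (1) and (2) are true for `t = 2`, and they are the conjecture for `k` for `t = 3`. -/
theorem result [PerfectField k] (hD : IsMotives D) (T : Set k) (hT : Subfield.closure T = ⊤) (t : ℕ) :
    List.TFAE [
      ForTerms 1 t fun Y : Sch k => IsSchurFinite (D.Mc Y),
      ForSystems T t fun Y : Sch k => IsSchurFinite (D.Mc Y),
      t ≤ 2 ∨ ∀ X : Sch k, FT True X → Smooth X.hom → IsSchurFinite (D.M X)] := by
  rw [← all_iff hD]
  exact dichotomy_field hT (clo_sf hD) (posD_sf hD) zero_le_one t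

end Pool.Agent.Results.MP_fc2ced_ag.TwoAndThreeTerms
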